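import Pool.Agent.Helper68.T3.GoalsT
import Pool.Agent.Helper2.SGT.NQR

/-!
# Packet PG-SHN (project T3, MP_a41896_nt): norm of the shifted polynomial
-/

set_option autoImplicit false

open MvPolynomial

namespace Pool.Agent.Helper2.T3

open WeierstrassCurve Height
open Pool.Agent.Helper29.BL Pool.Agent.Helper92.Ru Pool.Agent.Helper42.SG
open Pool.Agent.Helper65.SG
open Pool.Agent.Helper68.T3 (gsup SHN)
open Pool.Agent.Helper2.SGT

noncomputable section

variable {K : Type} [Field K] {σ : Type}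

lemma shiftP_C (ξ : σ → K) (a : K) : shiftP ξ (C a) = C a := by
  unfold shiftP
  rw [aeval_C, MvPolynomial.algebraMap_eq]

lemma shiftP_X (ξ : σ → K) (j : σ) : shiftP ξ (X j) = X j + C (ξ j) := by
  unfold shiftP
  rw [aeval_X]

lemma coeff_zero_shiftP (ξ : σ → K) (g : MvPolynomial σ K) : coeff 0 (shiftP ξ g) = eval ξ g := by
  induction g using MvPolynomial.induction_on with
  | C a => rw [shiftP_C, coeff_zero_C, eval_C]
  | add p q hp hq => rw [map_add, coeff_add, hp, hq, map_add]
  | mul_X p j hp =>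
    rw [map_mul, shiftP_X, mul_add, coeff_add, mul_comm (shiftP ξ p) (C (ξ j)), coeff_C_mul, hp, map_mul, eval_X,
      mul_comm (ξ j)]
    classical
    rw [coeff_mul_X']
    simp

lemma coeff_single_shiftP [DecidableEq σ] (ξ : σ → K) (i : σ) (g : MvPolynomial σ K) :
    coeff (Finsupp.single i 1) (shiftP ξ g) = eval ξ (pderiv i g) := by
  induction g using MvPolynomial.induction_on with
  | C a =>
    rw [shiftP_C, pderiv_C, map_zero, coeff_C, if_neg]
    intro h
    have := congrArg (fun f => f i) h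
    simp at this
  | add p q hp hq => rw [map_add, coeff_add, hp, hq, map_add, map_add]
  | mul_X p j hp =>
    rw [map_mul, shiftP_X, mul_add, coeff_add, mul_comm (shiftP ξ p) (C (ξ j)), coeff_C_mul, hp, pderiv_mul, map_add,
      map_mul, map_mul, eval_X, coeff_mul_X', pderiv_X]
    by_cases hij : i = j
    · subst hij
      have h1 : i ∈ (Finsupp.single i 1 : σ →₀ ℕ).support := by simp
      rw [if_pos h1, tsub_self, coeff_zero_shiftP]
      simp
      ring
    · have h1 : j ∉ (Finsupp.single i 1 : σ →₀ ℕ).support := by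
        simpa using Ne.symm hij
      rw [if_neg h1]
      simp [Ne.symm hij, mul_comm]

lemma shiftP_sum [Fintype σ] (ξ : σ → K) (g : MvPolynomial σ K) :
    shiftP ξ g = ∑ s ∈ g.support, C (coeff s g) * ∏ i, (X i + C (ξ i)) ^ s i := by
  unfold shiftP
  rw [aeval_def, eval₂_eq', MvPolynomial.algebraMap_eq]

lemma le_gsup (v : AbsoluteValue K ℝ) (g : MvPolynomial σ K) {s : σ →₀ ℕ} (hs : s ∈ g.support) :
    v (coeff s g) ≤ gsup v g := by
  unfold gsup
  exact le_ciSup (f := fun s : g.support => v (coeff s.1 g)) (Set.finite_range _).bddAbove ⟨s, hs⟩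

lemma gsup_nonneg (v : AbsoluteValue K ℝ) (g : MvPolynomial σ K) : 0 ≤ gsup v g := by
  unfold gsup
  exact Real.iSup_nonneg fun s => v.nonneg _

lemma card_supp [Fintype σ] [DecidableEq σ] (g : MvPolynomial σ K) (D0 : ℕ)
    (hg : ∀ i, g.degreeOf i ≤ D0) : g.support.card ≤ (D0 + 1) ^ Fintype.card σ := by
  have h1 : g.support.card ≤ (Fintype.piFinset fun _ : σ => Finset.range (D0 + 1)).card := by
    refine Finset.card_le_card_of_injOn (fun s i => s i) ?_ ?_
    · intro s hs
      rw [Finset.mem_coe, Fintype.mem_piFinset]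
      intro i
      rw [Finset.mem_range]
      exact Nat.lt_succ_of_le ((monomial_le_degreeOf i hs).trans (hg i))
    · intro s _ t _ h
      exact DFunLike.coe_injective h
  rw [Fintype.card_piFinset] at h1
  simpa using h1

theorem t_SHN (hF : FRPO) : SHN := by
  intro K _ _ σ _ _ D0
  set m : ℕ := Fintype.card σ with hm
  have hD1 : (1 : ℝ) ≤ ((D0 : ℝ) + 1) ^ m := one_le_pow₀ (by
    have : (0 : ℝ) ≤ D0 := Nat.cast_nonneg _
    linarith)
  refine ⟨fun v => cst v (((D0 : ℝ) + 1) ^ m) * cst v 2 ^ (D0 * m), ⟨?_, ?_⟩, ?_⟩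
  · intro v
    exact one_le_mul_of_one_le_of_one_le (one_le_cst v hD1)
      (one_le_pow₀ (one_le_cst v (by norm_num)))
  · refine ((FS_log_cst (K := K) (((D0 : ℝ) + 1) ^ m)).add ((FS_log_cst (K := K) 2).const_mul
      ((D0 * m : ℕ) : ℝ))).mono fun v _ hv => ?_
    rw [Real.log_mul (cst_pos v hD1).ne' (pow_pos (cst_pos v (by norm_num)) _).ne', Real.log_pow]
    exact hv
  · intro g ξ hg
    refine ⟨coeff_zero_shiftP ξ g, fun i => coeff_single_shiftP ξ i g, ?_⟩
    intro v
    obtain ⟨hN, hX, -⟩ := hF K v σ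
    have h2 : 1 ≤ cst v 2 := one_le_cst v (by norm_num)
    have hM : ∀ i, 1 ≤ Mv v (ξ i) := fun i => one_le_Mv v (ξ i)
    have hlin : ∀ i, NPol v (X i + C (ξ i) : MvPolynomial σ K) (cst v 2 * Mv v (ξ i)) := by
      intro i
      have hc := hN.const (ξ i)
      rw [MvPolynomial.algebraMap_eq] at hc
      by_cases hv : IsNonarchimedean v
      · rw [cst_of_nonarch hv, one_mul]
        exact hN.max hv _ _ _ _ (hX i) hc
      · rw [cst_of_not_nonarch hv]
        refine hN.mono _ _ _ (hN.add _ _ _ _ (hX i) hc) ?_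
        have h3 : v (ξ i) ≤ Mv v (ξ i) := le_max_right _ _
        have h4 := hM i
        linarith
    set Q : ℝ := cst v 2 ^ (D0 * m) * (∏ i, Mv v (ξ i)) ^ D0 with hQ
    have hQ0 : 0 ≤ Q := mul_nonneg (pow_nonneg (by linarith) _)
      (pow_nonneg (Finset.prod_nonneg fun i _ => by linarith [hM i]) _)
    have hterm : ∀ s ∈ g.support, NPol v (C (coeff s g) * ∏ i, (X i + C (ξ i)) ^ s i)
        (v (coeff s g) * Q) := by
      intro s hs
      have h1 : ∀ i ∈ (Finset.univ : Finset σ), NPol v ((X i + C (ξ i) : MvPolynomial σ K) ^ s i)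
          ((cst v 2 * Mv v (ξ i)) ^ D0) := by
        intro i _
        refine hN.mono _ _ _ (nf_pow hN (hlin i) (s i)) ?_
        exact pow_le_pow_right₀ (one_le_mul_of_one_le_of_one_le h2 (hM i))
          ((monomial_le_degreeOf i hs).trans (hg i))
      have h5 := nf_prod hN Finset.univ _ _ h1
      have h7 : ∏ i : σ, (cst v 2 * Mv v (ξ i)) ^ D0 = Q := by
        rw [Finset.prod_pow, Finset.prod_mul_distrib, Finset.prod_const, Finset.card_univ, mul_pow,
          ← pow_mul, mul_comm _ D0]
      rw [h7] at h5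
      have h6 := hN.const (coeff s g)
      rw [MvPolynomial.algebraMap_eq] at h6
      exact hN.mul _ _ _ _ h6 h5
    have hg0 := gsup_nonneg v g
    rw [shiftP_sum]
    by_cases hv : IsNonarchimedean v
    · have h8 := nf_sum_max hN hv g.support _ (gsup v g * Q) (mul_nonneg hg0 hQ0) fun s hs =>
        hN.mono _ _ _ (hterm s hs) (mul_le_mul_of_nonneg_right (le_gsup v g hs) hQ0)
      refine hN.mono _ _ _ h8 (le_of_eq ?_)
      simp only [cst_of_nonarch hv, hQ]
      ring
    · have h8 := nf_sum hN g.support _ (fun _ => gsup v g * Q) fun s hs =>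
        hN.mono _ _ _ (hterm s hs) (mul_le_mul_of_nonneg_right (le_gsup v g hs) hQ0)
      refine hN.mono _ _ _ h8 ?_
      rw [Finset.sum_const, nsmul_eq_mul]
      have h9 : (g.support.card : ℝ) ≤ ((D0 : ℝ) + 1) ^ m := by
        have := card_supp g D0 hg
        exact_mod_cast this
      calc (g.support.card : ℝ) * (gsup v g * Q) ≤ ((D0 : ℝ) + 1) ^ m * (gsup v g * Q) :=
            mul_le_mul_of_nonneg_right h9 (mul_nonneg hg0 hQ0)
        _ = _ := by
            simp only [cst_of_not_nonarch hv (((D0 : ℝ) + 1) ^ m), hQ]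
            ring

end

end Pool.Agent.Helper2.T3
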